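import Pool.Agent.H221R3.MD.Stmts

/-!
Project MD (helper221), task H: final assembly of the disproof of MP_571698_co from the other tasks.
-/

set_option autoImplicit false

namespace Pool.Agent.H823R3.MD

open Finset Pool.Agent.H221R3.MD

/-- the metric dimension of the Cartesian power (as in the frozen statement). -/
noncomputable def mdim {q : ℕ} (G : SimpleGraph (Fin q)) (n : ℕ) : ℕ :=
  sInf {k : ℕ | ∃ S : Finset (Fin n → Fin q), S.card = k ∧
    ∀ x y : Fin n → Fin q, x ≠ y → ∃ s ∈ S,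
      (SimpleGraph.fromRel (fun a b : Fin n → Fin q =>
          ∃ i : Fin n, G.Adj (a i) (b i) ∧ ∀ j : Fin n, j ≠ i → a j = b j)).dist x s ≠
      (SimpleGraph.fromRel (fun a b : Fin n → Fin q =>
          ∃ i : Fin n, G.Adj (a i) (b i) ∧ ∀ j : Fin n, j ≠ i → a j = b j)).dist y s}

lemma exists_resol (hF : TaskF) {q : ℕ} (G : SimpleGraph (Fin q)) (hG : G.Connected)
    (D : Fin q → Fin q → ℕ) (hD : ∀ u v, G.dist u v = D u v) (n : ℕ) :
    ∃ S : Finset (Fin n → Fin q), S.card = mdim G n ∧ Resol D S := by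
  have hne : {k : ℕ | ∃ S : Finset (Fin n → Fin q), S.card = k ∧
    ∀ x y : Fin n → Fin q, x ≠ y → ∃ s ∈ S,
      (SimpleGraph.fromRel (fun a b : Fin n → Fin q =>
          ∃ i : Fin n, G.Adj (a i) (b i) ∧ ∀ j : Fin n, j ≠ i → a j = b j)).dist x s ≠
      (SimpleGraph.fromRel (fun a b : Fin n → Fin q =>
          ∃ i : Fin n, G.Adj (a i) (b i) ∧ ∀ j : Fin n, j ≠ i → a j = b j)).dist y s}.Nonempty := by
    refine ⟨_, Finset.univ, rfl, fun x y hxy => ⟨x, Finset.mem_univ _, ?_⟩⟩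
    rw [hF q n G hG, hF q n G hG]
    have h1 : ∑ k, G.dist (x k) (x k) = 0 := by simp
    rw [h1]
    intro h2
    apply hxy
    funext k
    have h3 := (Finset.sum_eq_zero_iff.1 h2.symm) k (Finset.mem_univ k)
    exact ((hG.dist_eq_zero_iff).1 h3).symm
  obtain ⟨S, hcard, hres⟩ := Nat.sInf_mem hne
  refine ⟨S, hcard, fun x y hxy => ?_⟩
  obtain ⟨s, hs, hne'⟩ := hres x y hxy
  refine ⟨s, hs, ?_⟩
  rw [hF q n G hG, hF q n G hG] at hne'
  simpa only [hD] using hne'

theorem taskH : TaskH := by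
  intro hA hB hC hD hE hF hG hP hall
  obtain ⟨G, hconn, hdist⟩ := hG
  obtain ⟨K, C, hC10, hPos⟩ := hP
  have hTD := hD hA hB hC
  refine hE 10 C 3 (fun n => mdim G n) (by norm_num) (by exact_mod_cast hC10) (by norm_num) ?_
    (hall 10 (by norm_num) G hconn)
  intro n hn t ht
  obtain ⟨S, hcard, hR⟩ := exists_resol hF G hconn DT hdist n
  have hb : ∀ u s : Fin 10, (DT u s : ℝ) ≤ 3 := by
    have : ∀ u s : Fin 10, DT u s ≤ 3 := by decide
    intro u s
    exact_mod_cast this u s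
  have key := hTD 10 n DT K C 3 hPos (by norm_num) hn hb S hR t (by rw [hcard]; exact ht)
  rw [hcard] at key
  exact key

end Pool.Agent.H823R3.MD
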